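import Pool.Agent.H933.LL.Stm5
import Pool.Agent.H183.LL.Loc2

/-!
# P_fix: average over the coupling constant of `log⁺` of the resolvent (task LL)
-/

set_option autoImplicit false

open MeasureTheory Metric
open scoped Real ENNReal
open Pool.Agent.H933.LL
open Pool.Agent.H183.LL (Gm pert res_left res_right F_apply exists_inv)

namespace Pool.Agent.H955.LL

section
variable {X : Type} [NormedAddCommGroup X] [NormedSpace ℂ X] {n : ℕ}

/-- no eigenvalue if the determinant does not vanish -/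
theorem fix_no_eig {T T₁ Q : X →L[ℂ] X} {w : ℂ} {φ : Fin n → (X →L[ℂ] ℂ)} {f : Fin n → X}
    (hT : ∀ x, T x = T₁ x + ∑ i, φ i x • f i) (hQ : ∀ x, Q (w • x - T₁ x) = x)
    (hd : (Gm Q φ f).det ≠ 0) : ∀ x : X, T x = w • x → x = 0 := by
  intro x hx
  have h1 : w • x - T₁ x = ∑ i, φ i x • f i := by
    rw [← hx, hT, add_sub_cancel_left]
  have h2 : Q (∑ i, φ i x • f i) = x := by
    rw [← h1, hQ]
  have h3 : (Gm Q φ f).mulVec (fun i => φ i x) = 0 := by
    funext i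
    have h4 : (Gm Q φ f).mulVec (fun i => φ i x) i = φ i x - ∑ j, φ j x * φ i (Q (f j)) := by
      unfold Gm Matrix.mulVec dotProduct
      simp only [Matrix.of_apply, sub_mul, Finset.sum_sub_distrib]
      rw [Finset.sum_eq_single i]
      · rw [if_pos rfl, one_mul]
        congr 1
        exact Finset.sum_congr rfl fun j _ => mul_comm _ _
      · intro j _ hj
        rw [if_neg (Ne.symm hj), zero_mul]
      · intro h
        exact absurd (Finset.mem_univ _) h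
    have h5 := congrArg (φ i) h2
    rw [map_sum, map_sum] at h5
    rw [h4, Pi.zero_apply, sub_eq_zero, ← h5]
    refine Finset.sum_congr rfl fun j _ => ?_
    rw [map_smul, map_smul, smul_eq_mul]
  have h5 : (fun i => φ i x) = 0 := by
    by_contra hne
    exact hd (Matrix.exists_mulVec_eq_zero_iff.1 ⟨_, hne, h3⟩)
  rw [← h2, Finset.sum_eq_zero, map_zero]
  intro i _
  have h6 := congrFun h5 i
  simp only [Pi.zero_apply] at h6
  rw [h6, zero_smul]

theorem fix_inv_norm {Q : X →L[ℂ] X} {φ : Fin n → (X →L[ℂ] ℂ)} {f : Fin n → X} {ρ s m : ℝ}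
    (hρ : 1 ≤ ρ) (_hs : 0 ≤ s) (hm : 0 ≤ m)
    (hQ : ‖Q‖ ≤ 2 * ρ) (hφ : ∀ i, ‖φ i‖ ≤ ρ) (hf : ∀ i, ‖f i‖ ≤ s * ρ)
    {A : Matrix (Fin n) (Fin n) ℂ} (hA : ∀ i j, ‖A i j‖ ≤ m) :
    ‖Q + ∑ i, ∑ j, (A i j) • ((φ j).comp Q).smulRight (Q (f i))‖ ≤
      2 * ρ + n ^ 2 * (4 * ρ ^ 4 * s) * m := by
  have hρ0 : 0 ≤ ρ := by linarith
  refine (norm_add_le _ _).trans (add_le_add hQ ?_)
  have h1 : ∀ i j, ‖(A i j) • ((φ j).comp Q).smulRight (Q (f i))‖ ≤ 4 * ρ ^ 4 * s * m := by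
    intro i j
    rw [norm_smul, ContinuousLinearMap.norm_smulRight_apply]
    have h2 : ‖(φ j).comp Q‖ ≤ ρ * (2 * ρ) :=
      (ContinuousLinearMap.opNorm_comp_le _ _).trans
        (mul_le_mul (hφ j) hQ (norm_nonneg _) hρ0)
    have h3 : ‖Q (f i)‖ ≤ (2 * ρ) * (s * ρ) :=
      (Q.le_opNorm _).trans (mul_le_mul hQ (hf i) (norm_nonneg _) (by positivity))
    calc ‖A i j‖ * (‖(φ j).comp Q‖ * ‖Q (f i)‖) ≤ m * ((ρ * (2 * ρ)) * ((2 * ρ) * (s * ρ))) :=
          mul_le_mul (hA i j) (mul_le_mul h2 h3 (norm_nonneg _) (by positivity))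
            (by positivity) hm
      _ = 4 * ρ ^ 4 * s * m := by ring
  calc ‖∑ i, ∑ j, (A i j) • ((φ j).comp Q).smulRight (Q (f i))‖
      ≤ ∑ i : Fin n, ∑ j : Fin n, ‖(A i j) • ((φ j).comp Q).smulRight (Q (f i))‖ :=
        (norm_sum_le _ _).trans (Finset.sum_le_sum fun i _ => norm_sum_le _ _)
    _ ≤ ∑ _i : Fin n, ∑ _j : Fin n, 4 * ρ ^ 4 * s * m :=
        Finset.sum_le_sum fun i _ => Finset.sum_le_sum fun j _ => h1 i j
    _ = n ^ 2 * (4 * ρ ^ 4 * s) * m := by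
        rw [Finset.sum_const, Finset.sum_const, Finset.card_univ, Fintype.card_fin, nsmul_eq_mul,
          nsmul_eq_mul]
        ring

end

/-! ### numerical part -/

theorem fix_num (n : ℕ) {ρ r x y : ℝ} (hρ : 1 ≤ ρ) (hr : 0 < r) (hx : 0 ≤ x)
    (h : x ≤ 2 * ρ + n ^ 2 * (4 * ρ ^ 4 * r) * ((n * (3 * (r + 1) * ρ ^ 3)) ^ n * y)) :
    Real.posLog x ≤ (1 + (1 + Real.log ρ) + (2 * n + (2 + 4 * Real.log ρ + Real.log (1 + r))) +
      n * (n + (2 + Real.log (1 + r) + 3 * Real.log ρ))) + Real.posLog y ∧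
    Real.log ((n * (3 * (r + 1) * ρ ^ 3)) ^ n) ≤
      n * (n + (2 + Real.log (1 + r) + 3 * Real.log ρ)) := by
  have hlρ : Real.posLog ρ = Real.log ρ := Real.posLog_eq_log (hρ.trans (le_abs_self ρ))
  have hlr : Real.posLog (r + 1) = Real.log (1 + r) := by
    rw [add_comm r 1]
    exact Real.posLog_eq_log ((by linarith : 1 ≤ 1 + r).trans (le_abs_self _))
  have hlr' : Real.posLog r ≤ Real.log (1 + r) := by
    rw [← hlr]
    exact Real.posLog_le_posLog hr.le (by linarith)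
  have hla : 0 ≤ Real.log ρ := Real.log_nonneg hρ
  have hlb : 0 ≤ Real.log (1 + r) := Real.log_nonneg (by linarith)
  have hn0 : (0 : ℝ) ≤ n := Nat.cast_nonneg n
  have hln : Real.posLog (n : ℝ) ≤ n := by
    rw [Real.log_of_nat_eq_posLog]
    rcases Nat.eq_zero_or_pos n with h0 | h0
    · rw [h0]
      simp
    · have : (0 : ℝ) < n := by exact_mod_cast h0
      have := Real.log_le_sub_one_of_pos this
      linarith
  have hl2 : Real.posLog 2 ≤ 1 := by
    have := Real.log_two_lt_d9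
    rw [Real.posLog_eq_log (by norm_num)]
    linarith
  have hl2' : Real.log 2 ≤ 1 := by
    have := Real.log_two_lt_d9
    linarith
  have hl4 : Real.posLog 4 ≤ 2 := by
    have h4 : (4 : ℝ) = 2 ^ 2 := by norm_num
    rw [h4, Real.posLog_pow]
    push_cast
    linarith
  have hl3 : Real.posLog 3 ≤ 2 :=
    (Real.posLog_le_posLog (by norm_num) (by norm_num : (3 : ℝ) ≤ 4)).trans hl4
  have e1 : Real.posLog (3 * (r + 1) * ρ ^ 3) ≤ 2 + Real.log (1 + r) + 3 * Real.log ρ := by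
    refine Real.posLog_mul.trans (add_le_add (Real.posLog_mul.trans ?_) ?_)
    · rw [hlr]
      linarith
    · rw [Real.posLog_pow, hlρ]
      push_cast
      linarith
  have e3 : Real.posLog ((n * (3 * (r + 1) * ρ ^ 3)) ^ n) ≤
      n * (n + (2 + Real.log (1 + r) + 3 * Real.log ρ)) := by
    rw [Real.posLog_pow]
    refine mul_le_mul_of_nonneg_left ?_ (by positivity)
    exact Real.posLog_mul.trans (add_le_add hln e1)
  have e5 : Real.posLog (n ^ 2 * (4 * ρ ^ 4 * r)) ≤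
      2 * n + (2 + 4 * Real.log ρ + Real.log (1 + r)) := by
    refine Real.posLog_mul.trans (add_le_add ?_ (Real.posLog_mul.trans (add_le_add
      (Real.posLog_mul.trans (add_le_add hl4 ?_)) hlr')))
    · rw [Real.posLog_pow]
      push_cast
      linarith
    · rw [Real.posLog_pow, hlρ]
      push_cast
      linarith
  have e6 : Real.posLog (2 * ρ) ≤ 1 + Real.log ρ := by
    refine Real.posLog_mul.trans ?_
    rw [hlρ]
    linarith
  refine ⟨?_, ?_⟩
  · have e7 : Real.posLog x ≤ 1 + (1 + Real.log ρ) +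
        (2 * n + (2 + 4 * Real.log ρ + Real.log (1 + r)) +
        (n * (n + (2 + Real.log (1 + r) + 3 * Real.log ρ)) + Real.posLog y)) := by
      refine (Real.posLog_le_posLog hx h).trans (Real.posLog_add.trans ?_)
      refine add_le_add (add_le_add hl2' e6) ?_
      exact Real.posLog_mul.trans (add_le_add e5 (Real.posLog_mul.trans (add_le_add e3 le_rfl)))
    linarith
  · refine le_trans ?_ e3
    exact le_max_right _ _

theorem fix_num2 (n : ℕ) {a b : ℝ} (ha : 0 ≤ a) (hb : 0 ≤ b) :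
    (1 + (1 + a) + (2 * n + (2 + 4 * a + b)) + n * (n + (2 + b + 3 * a))) +
      n * (n + (2 + b + 3 * a)) ≤ 100 * (n + 1 : ℝ) ^ 2 * (1 + a + b) := by
  have hn0 : (0 : ℝ) ≤ n := Nat.cast_nonneg n
  generalize (n : ℝ) = m at hn0 ⊢
  have p1 : 0 ≤ m * a := by positivity
  have p2 : 0 ≤ m * b := by positivity
  have p3 : 0 ≤ m ^ 2 * a := by positivity
  have p4 : 0 ≤ m ^ 2 * b := by positivity
  have p5 : 0 ≤ m ^ 2 := by positivity
  have e8 : 100 * (m + 1) ^ 2 * (1 + a + b) = 100 * (m ^ 2 + 2 * m + 1 + (m ^ 2 * a) +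
      2 * (m * a) + a + (m ^ 2 * b) + 2 * (m * b) + b) := by ring
  rw [e8]
  have e9 : (1 + (1 + a) + (2 * m + (2 + 4 * a + b)) + m * (m + (2 + b + 3 * a))) +
      m * (m + (2 + b + 3 * a)) = 4 + 5 * a + b + 6 * m + 2 * m ^ 2 + 2 * (m * b) +
        6 * (m * a) := by ring
  rw [e9]
  linarith

/-! ### the determinant -/

section
variable {X : Type} [NormedAddCommGroup X] [NormedSpace ℂ X] [CompleteSpace X] {n : ℕ}

/-- the determinant as a function of the coupling -/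
noncomputable def fix_D (S G₀ : X →L[ℂ] X) (z : ℂ) (φ : Fin n → (X →L[ℂ] ℂ)) (f : Fin n → X)
    (κ : ℂ) : ℂ := (Gm (resolvent (S + κ • G₀) z) φ fun i => κ • f i).det

theorem fix_diff {S G₀ : X →L[ℂ] X} {z : ℂ} {φ : Fin n → (X →L[ℂ] ℂ)} {f : Fin n → X}
    {U : Set ℂ} (hU : ∀ κ ∈ U, z ∈ resolventSet ℂ (S + κ • G₀)) :
    DifferentiableOn ℂ (fix_D S G₀ z φ f) U := by
  have h1 : ∀ i j, DifferentiableOn ℂ
      (fun κ => Gm (resolvent (S + κ • G₀) z) φ (fun i => κ • f i) i j) U := by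
    intro i j κ hκ
    have h2 : DifferentiableAt ℂ (fun κ : ℂ => resolvent (S + κ • G₀) z) κ := by
      have h3 : IsUnit (algebraMap ℂ (X →L[ℂ] X) z - (S + κ • G₀)) := hU κ hκ
      have h4 : DifferentiableAt ℂ (fun κ : ℂ => algebraMap ℂ (X →L[ℂ] X) z - (S + κ • G₀)) κ := by
        fun_prop
      exact DifferentiableAt.comp κ (differentiableAt_inverse h3) h4
    have h3 : DifferentiableAt ℂ (fun κ => φ i (resolvent (S + κ • G₀) z (f j))) κ :=
      (((φ i).comp (ContinuousLinearMap.apply ℂ X (f j))).differentiableAt).comp κ h2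
    have h4 : (fun κ => Gm (resolvent (S + κ • G₀) z) φ (fun i => κ • f i) i j) =
        fun κ => (if i = j then (1 : ℂ) else 0) -
          κ * φ i (resolvent (S + κ • G₀) z (f j)) := by
      funext κ
      unfold Gm
      rw [Matrix.of_apply, map_smul, map_smul, smul_eq_mul]
    rw [h4]
    exact ((differentiableAt_const _).sub (differentiableAt_id.mul h3)).differentiableWithinAt
  unfold fix_D
  simp only [Matrix.det_apply]
  refine DifferentiableOn.fun_sum fun σ _ => ?_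
  refine DifferentiableOn.const_smul ?_ _
  exact DifferentiableOn.fun_finsetProd fun i _ => h1 _ _

end

theorem p_fix (h1 : P_det) (h2 : P_neg) : P_fix := by
  intro X _ _ _ S K z r ρ n φ f hr hρ hz hS hφ hK
  obtain ⟨G₀, hG₀⟩ : ∃ G₀ : X →L[ℂ] X, G₀ = K - ∑ i, (φ i).smulRight (f i) := ⟨_, rfl⟩
  rw [← hG₀] at hK
  have hT : ∀ (κ : ℂ) (x : X), (S + κ • K) x = (S + κ • G₀) x + ∑ i, φ i x • (κ • f i) := by
    intro κ x
    have e1 : ∑ i, φ i x • (κ • f i) = κ • (∑ i, (φ i).smulRight (f i)) x := by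
      rw [F_apply, Finset.smul_sum]
      exact Finset.sum_congr rfl fun i _ => smul_comm _ _ _
    rw [e1, _root_.add_apply, _root_.add_apply, _root_.smul_apply, _root_.smul_apply, hG₀,
      _root_.sub_apply, smul_sub]
    abel
  have hρ0 : 0 ≤ ρ := by linarith
  have hQ : ∀ κ ∈ ball (0 : ℂ) (r + 1), z ∈ resolventSet ℂ (S + κ • G₀) ∧
      ‖resolvent (S + κ • G₀) z‖ ≤ 2 * ρ := by
    intro κ hκ
    rw [mem_ball_zero_iff] at hκ
    refine pert hz hS (le_trans ?_ hK)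
    rw [norm_smul]
    calc ‖κ‖ * ‖G₀‖ * ρ ≤ (r + 1) * ‖G₀‖ * ρ := by gcongr
      _ = ‖G₀‖ * ρ * (r + 1) := by ring
  have hg : (1 : ℝ) ≤ 3 * (r + 1) * ρ ^ 3 := by
    have h3 : 1 ≤ ρ ^ 3 := one_le_pow₀ hρ
    nlinarith
  have hent : ∀ κ ∈ ball (0 : ℂ) (r + 1), ∀ i j,
      ‖Gm (resolvent (S + κ • G₀) z) φ (fun i => κ • f i) i j‖ ≤ 3 * (r + 1) * ρ ^ 3 := by
    intro κ hκ i j
    have hκ' : ‖κ‖ ≤ r + 1 := by
      rw [mem_ball_zero_iff] at hκ
      exact hκ.le
    have h3 : ‖φ i (resolvent (S + κ • G₀) z (κ • f j))‖ ≤ ρ * ((2 * ρ) * ((r + 1) * ρ)) := by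
      refine ((φ i).le_opNorm _).trans (mul_le_mul (hφ i).1
        (((resolvent (S + κ • G₀) z).le_opNorm _).trans
        (mul_le_mul (hQ κ hκ).2 ?_ (norm_nonneg _) (by positivity))) (norm_nonneg _) hρ0)
      rw [norm_smul]
      exact mul_le_mul hκ' (hφ j).2 (norm_nonneg _) (by positivity)
    have h4 : ‖(if i = j then (1 : ℂ) else 0)‖ ≤ 1 := by
      split_ifs <;> simp
    have h5 : 1 ≤ ρ ^ 3 := one_le_pow₀ hρ
    unfold Gm
    rw [Matrix.of_apply]
    calc _ ≤ ‖(if i = j then (1 : ℂ) else 0)‖ + ‖φ i (resolvent (S + κ • G₀) z (κ • f j))‖ :=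
          norm_sub_le _ _
      _ ≤ 1 + ρ * ((2 * ρ) * ((r + 1) * ρ)) := add_le_add h4 h3
      _ ≤ (r + 1) * ρ ^ 3 + 2 * (r + 1) * ρ ^ 3 := by
          have h6 : ρ * ((2 * ρ) * ((r + 1) * ρ)) = 2 * (r + 1) * ρ ^ 3 := by ring
          have h7 : 1 ≤ (r + 1) * ρ ^ 3 := by nlinarith
          linarith
      _ = 3 * (r + 1) * ρ ^ 3 := by ring
  obtain ⟨M, hMdef⟩ : ∃ M : ℝ, M = (n * (3 * (r + 1) * ρ ^ 3)) ^ n := ⟨_, rfl⟩
  have hM1 : 1 ≤ M := by
    rw [hMdef]
    rcases Nat.eq_zero_or_pos n with h0 | h0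
    · rw [h0]
      simp
    · refine one_le_pow₀ ?_
      have : (1 : ℝ) ≤ n := by exact_mod_cast h0
      nlinarith
  have hM : ∀ κ ∈ ball (0 : ℂ) (r + 1), ‖fix_D S G₀ z φ f κ‖ ≤ M := by
    intro κ hκ
    rw [hMdef]
    exact (h1 n _ _ hg (hent κ hκ)).1
  have hsub : closedBall (0 : ℂ) r ⊆ ball (0 : ℂ) (r + 1) :=
    closedBall_subset_ball (by linarith)
  have hsub' : ball (0 : ℂ) r ⊆ ball (0 : ℂ) (r + 1) := ball_subset_ball (by linarith)
  have hD0 : fix_D S G₀ z φ f 0 = 1 := by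
    unfold fix_D
    have e1 : Gm (resolvent (S + (0 : ℂ) • G₀) z) φ (fun i => (0 : ℂ) • f i) = 1 := by
      ext i j
      unfold Gm
      rw [Matrix.of_apply]
      simp only [zero_smul, map_zero, sub_zero, Matrix.one_apply]
    rw [e1, Matrix.det_one]
  obtain ⟨hint, hle, hvol⟩ := h2 (fix_D S G₀ z φ f) (ball (0 : ℂ) (r + 1)) r M isOpen_ball hr
    hsub (fix_diff fun κ hκ => (hQ κ hκ).1) hD0 hM1 (fun κ hκ => hM κ (hsub' hκ))
  -- the good couplings
  have hgood : ∀ κ ∈ ball (0 : ℂ) r, fix_D S G₀ z φ f κ ≠ 0 →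
      z ∈ resolventSet ℂ (S + κ • K) ∧ Real.posLog ‖resolvent (S + κ • K) z‖ ≤
      (1 + (1 + Real.log ρ) + (2 * n + (2 + 4 * Real.log ρ + Real.log (1 + r))) +
      n * (n + (2 + Real.log (1 + r) + 3 * Real.log ρ))) +
        Real.posLog ‖fix_D S G₀ z φ f κ‖⁻¹ := by
    intro κ hκ hd
    have hκ1 := hsub' hκ
    have he := fix_no_eig (hT κ) (res_left (hQ κ hκ1).1) hd
    obtain ⟨h3, h4⟩ := exists_inv (hT κ) (res_right (hQ κ hκ1).1) he
    refine ⟨h3, (fix_num n hρ hr (norm_nonneg _) ?_).1⟩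
    rw [h4]
    have h5 := (h1 n _ _ hg (hent κ hκ1)).2 hd
    rw [← hMdef]
    have h6 : ∀ i j, ‖(Gm (resolvent (S + κ • G₀) z) φ fun i => κ • f i)⁻¹ i j‖ ≤
        M * ‖fix_D S G₀ z φ f κ‖⁻¹ := by
      intro i j
      rw [hMdef, ← div_eq_mul_inv]
      exact h5 i j
    refine fix_inv_norm hρ hr.le (by positivity) (hQ κ hκ1).2 (fun i => (hφ i).1) (fun i => ?_) h6
    rw [norm_smul]
    rw [mem_ball_zero_iff] at hκ
    exact mul_le_mul hκ.le (hφ i).2 (norm_nonneg _) hr.le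
  have hae : ∀ᵐ κ ∂(volume.restrict (ball (0 : ℂ) r)), κ ∈ ball (0 : ℂ) r ∧
      fix_D S G₀ z φ f κ ≠ 0 := by
    rw [ae_restrict_iff' measurableSet_ball, ae_iff]
    refine measure_mono_null (fun κ hκ => ?_) hvol
    simp only [Set.mem_ofPred_eq, Classical.not_imp, not_and, not_not] at hκ
    exact ⟨hκ.1, hκ.2 hκ.1⟩
  refine ⟨hae.mono fun κ hκ => (hgood κ hκ.1 hκ.2).1, ?_⟩
  obtain ⟨A, hA⟩ : ∃ A : ℝ, A = 1 + (1 + Real.log ρ) +
      (2 * n + (2 + 4 * Real.log ρ + Real.log (1 + r))) +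
      n * (n + (2 + Real.log (1 + r) + 3 * Real.log ρ)) := ⟨_, rfl⟩
  have hla : 0 ≤ Real.log ρ := Real.log_nonneg hρ
  have hlb : 0 ≤ Real.log (1 + r) := Real.log_nonneg (by linarith)
  have hA0 : 0 ≤ A := by
    rw [hA]
    positivity
  have hvb : volume (ball (0 : ℂ) r) = ENNReal.ofReal (π * r ^ 2) := by
    rw [Complex.volume_ball, mul_comm π, ENNReal.ofReal_mul (by positivity),
      ENNReal.ofReal_pow hr.le]
    congr 1
    rw [ENNReal.ofReal_eq_coe_nnreal Real.pi_pos.le]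
    rfl
  calc ∫⁻ κ in ball (0 : ℂ) r, ENNReal.ofReal (Real.posLog ‖resolvent (S + κ • K) z‖)
      ≤ ∫⁻ κ in ball (0 : ℂ) r, (ENNReal.ofReal A +
          ENNReal.ofReal (Real.posLog ‖fix_D S G₀ z φ f κ‖⁻¹)) := by
        refine lintegral_mono_ae (hae.mono fun κ hκ => ?_)
        rw [← ENNReal.ofReal_add hA0 Real.posLog_nonneg, hA]
        exact ENNReal.ofReal_le_ofReal (hgood κ hκ.1 hκ.2).2
    _ = ENNReal.ofReal A * ENNReal.ofReal (π * r ^ 2) +
          ∫⁻ κ in ball (0 : ℂ) r, ENNReal.ofReal (Real.posLog ‖fix_D S G₀ z φ f κ‖⁻¹) := by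
        rw [lintegral_add_left measurable_const, lintegral_const, Measure.restrict_apply_univ,
          hvb]
    _ = ENNReal.ofReal A * ENNReal.ofReal (π * r ^ 2) +
          ENNReal.ofReal (∫ κ in ball (0 : ℂ) r, Real.posLog ‖fix_D S G₀ z φ f κ‖⁻¹) := by
        rw [ofReal_integral_eq_lintegral_ofReal hint
          (Filter.Eventually.of_forall fun κ => Real.posLog_nonneg)]
    _ ≤ ENNReal.ofReal A * ENNReal.ofReal (π * r ^ 2) +
          ENNReal.ofReal (π * r ^ 2 * Real.log M) := by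
        gcongr
    _ = ENNReal.ofReal (A * (π * r ^ 2) + π * r ^ 2 * Real.log M) := by
        rw [← ENNReal.ofReal_mul hA0, ← ENNReal.ofReal_add (by positivity)
          (mul_nonneg (by positivity) (Real.log_nonneg hM1))]
    _ ≤ _ := by
        refine ENNReal.ofReal_le_ofReal ?_
        have h3 : Real.log M ≤ n * (n + (2 + Real.log (1 + r) + 3 * Real.log ρ)) := by
          rw [hMdef]
          exact (fix_num n (y := 0) hρ hr le_rfl (by positivity)).2
        have h4 := fix_num2 n hla hlb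
        have h5 : 0 ≤ π * r ^ 2 := by positivity
        calc A * (π * r ^ 2) + π * r ^ 2 * Real.log M = (π * r ^ 2) * (A + Real.log M) := by ring
          _ ≤ (π * r ^ 2) * (100 * (n + 1 : ℝ) ^ 2 * (1 + Real.log ρ + Real.log (1 + r))) := by
              refine mul_le_mul_of_nonneg_left (le_trans ?_ h4) h5
              rw [hA]
              linarith
          _ = _ := by ring

end Pool.Agent.H955.LL
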